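import Pool.Agent.Helper1.RG.Defs

/-!
RG, row D5 (helper62): pigeonhole.  Code of a character: its cell, and the word with letter `none`
at the good times and `some (lab (χ (x_j)))` at the bad times.
-/

set_option autoImplicit false

open MeasureTheory Complex
open scoped ComplexConjugate

namespace Pool.Agent.Helper62.RG

open Pool.Agent.Helper1.RG

open Classical in
theorem st_D5 (h1 : ST_D1) (h2 : ST_D2) (h3 : ST_D3) (h4 : ST_D4) : ST_D5 := by
  obtain ⟨C3, lab, hlab⟩ := h3
  intro η hη
  obtain ⟨lam, hlam, hw⟩ := h4 C3 η hη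
  refine ⟨lam, hlam, ?_⟩
  intro F c hF
  obtain ⟨s, hs, hs0, η1, hη1, hη1', hstep⟩ := h1 F c hF
  obtain ⟨C2, cell, hcell⟩ := h2 s hs hs0 η1 hη1
  refine ⟨s, hs, hs0, (C2 : ℝ) + 1, by positivity, ?_⟩
  intro L A f hA hcard
  -- the word
  let wd : Om → Fin L → Option (Fin C3) := fun χ j =>
    if χ.mulShift (kk ^ (j : ℕ)) ∈ bad F c then some (lab (χ (xj (j : ℕ)))) else none
  have hwd : ∀ a ∈ A, (((Finset.univ : Finset (Fin L)).filter fun j => wd (f a) j ≠ none).card : ℝ)
      ≤ lam * L := by
    intro a ha
    refine le_trans ?_ (hA a ha)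
    norm_cast
    refine Finset.card_le_card_of_injOn (fun j => (j : ℕ)) ?_ ?_
    · intro j hj
      simp only [Finset.coe_filter, Finset.mem_univ, true_and, Set.mem_setOf_eq] at hj
      simp only [Finset.coe_filter, Finset.mem_range, Set.mem_setOf_eq]
      refine ⟨j.2, ?_⟩
      by_contra hb
      exact hj (by simp [wd, hb])
    · intro i _ j _ hij
      exact Fin.ext hij
  let W : Finset (Fin L → Option (Fin C3)) :=
    (Finset.univ : Finset (Fin L → Option (Fin C3))).filter fun w =>
      (((Finset.univ : Finset (Fin L)).filter fun j => w j ≠ none).card : ℝ) ≤ lam * L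
  have hWcard : (W.card : ℝ) ≤ Real.exp (η * L) := hw L
  let K : Finset (Fin C2 × (Fin L → Option (Fin C3))) := Finset.univ ×ˢ W
  have hK : K.card < A.card := by
    have h : (K.card : ℝ) < A.card := by
      calc (K.card : ℝ) = (C2 : ℝ) * W.card := by
            simp [K, Finset.card_product]
        _ ≤ ((C2 : ℝ) + 1) * Real.exp (η * L) := by
            have := Real.exp_pos (η * L)
            gcongr
            linarith
        _ < A.card := hcard
    exact_mod_cast h
  obtain ⟨a, ha, b, hb, hab, hcode⟩ := Finset.exists_ne_map_eq_of_card_lt_of_maps_to hK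
    (f := fun a => (cell (f a), wd (f a))) (by
      intro a ha
      simp only [K, W, Finset.coe_product, Set.mem_prod, Finset.mem_coe, Finset.mem_univ, true_and,
        Finset.mem_filter]
      exact hwd a ha)
  simp only [Prod.mk.injEq] at hcode
  obtain ⟨hc1, hc2⟩ := hcode
  obtain ⟨t, ht, hagr⟩ := hcell (f a) (f b) hc1
  refine ⟨a, ha, b, hb, hab, t, ht.trans hη1', ?_⟩
  have key : ∀ j, j ≤ L → Agr (f a) (f b) t j s := by
    intro j
    induction j with
    | zero => intro _; exact hagr
    | succ j ih =>
      intro hj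
      have hjL : j < L := hj
      refine hstep (f a) (f b) t j ht (ih hjL.le) ?_
      have hw' := congrFun hc2 ⟨j, hjL⟩
      simp only [wd] at hw'
      by_cases h1 : (f a).mulShift (kk ^ j) ∈ bad F c
      · by_cases h2 : (f b).mulShift (kk ^ j) ∈ bad F c
        · right
          rw [if_pos h1, if_pos h2] at hw'
          exact hlab _ _ (Option.some.inj hw')
        · rw [if_pos h1, if_neg h2] at hw'
          exact absurd hw' (by simp)
      · by_cases h2 : (f b).mulShift (kk ^ j) ∈ bad F c
        · rw [if_neg h1, if_pos h2] at hw'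
          exact absurd hw' (by simp)
        · left
          exact ⟨h1, h2⟩
  exact key L le_rfl

end Pool.Agent.Helper62.RG
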